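import Pool.Agent.W633.LT.BC

/-! # Project LG: the restriction is exact -/

set_option autoImplicit false

namespace W308.LG

open W633.LT

variable {k : Type} [Field k] {S : Subdiv}

/-- the maps induced on the restrictions commute with the restriction maps -/
theorem comm_aux {E' E : Bundle0 k S} {v l r : ℚ} (h : Adm S v l r) {N' N : MFam k}
    {φ' : ∀ b c, E'.mod (fibChart h b c) →+ N'.mod b c}
    {φ : ∀ b c, E.mod (fibChart h b c) →+ N.mod b c}
    (hE' : IsFib E' h N' φ') (hE : IsFib E h N φ)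
    (f : ∀ x : Chart S, E'.mod x →ₗ[x.1.ring k] E.mod x)
    (hf : ∀ {x y : Chart S} (h : IsHom 0 x.1 y.1) (e : E'.mod x),
      E.res h (f x e) = f y (E'.res h e))
    {b c b' c' : SignType} (hb : Sub b b') (hc : Sub c c') (u : N'.mod b c) :
    (hE'.bc b' c').map (hE.bc b' c') (f (fibChart h b' c')) (N'.res hb hc u) =
      N.res hb hc ((hE'.bc b c).map (hE.bc b c) (f (fibChart h b c)) u) := by
  refine (hE'.bc b c).ext_semi (ρ' := torMap k hb hc)
    (G := ((hE'.bc b' c').map (hE.bc b' c') (f (fibChart h b' c'))).toAddMonoidHom.comp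
      (N'.res hb hc))
    (G' := (N.res hb hc).comp
      ((hE'.bc b c).map (hE.bc b c) (f (fibChart h b c))).toAddMonoidHom)
    (fun a n => ?_) (fun a n => ?_) (fun e => ?_) u
  · change (hE'.bc b' c').map (hE.bc b' c') (f (fibChart h b' c')) (N'.res hb hc (a • n)) = _
    rw [(N'.res_bc hb hc).1, map_smul]
    rfl
  · change N.res hb hc ((hE'.bc b c).map (hE.bc b c) (f (fibChart h b c)) (a • n)) = _
    rw [map_smul, (N.res_bc hb hc).1]
    rfl
  · change (hE'.bc b' c').map (hE.bc b' c') (f (fibChart h b' c'))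
      (N'.res hb hc (φ' b c e)) = N.res hb hc ((hE'.bc b c).map (hE.bc b c)
        (f (fibChart h b c)) (φ' b c e))
    rw [← hE'.comm hb hc e, IsBC.map_apply, IsBC.map_apply, ← hE.comm hb hc]
    congr 1
    exact (hf (x := fibChart h b c) (y := fibChart h b' c') (fib_isHom hb hc) e).symm

theorem rexact : W633.LT.RExact := by
  intro k _ S E' E E'' v l r h N' N N'' φ' φ φ'' hex hE' hE hE''
  obtain ⟨f, g, hf, hg, hx⟩ := hex
  refine ⟨fun b c => (hE'.bc b c).map (hE.bc b c) (f (fibChart h b c)),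
    fun b c => (hE.bc b c).map (hE''.bc b c) (g (fibChart h b c)), ?_, ?_, ?_⟩
  · intro b c b' c' hb hc u
    exact comm_aux h hE' hE f hf hb hc u
  · intro b c b' c' hb hc u
    exact comm_aux h hE hE'' g hg hb hc u
  · intro b c
    obtain ⟨x1, x2, x3⟩ := hx (fibChart h b c)
    exact IsBC.exact (hE'.bc b c) (hE.bc b c) (hE''.bc b c) _ _ x1 x2 x3

end W308.LG
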